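import Mathlib

set_option autoImplicit false

/-!
# MP_633f17_co: the exact order of the largest product of cross-(t,s) families

For fixed `d = n - t - s` the largest product `|F| |G|` of cross-`(t,s)` families has the exact order
`n ^ d`, and `m(n,t,s)` has the exact order `n ^ ⌊d / 2⌋`, uniformly in all `t, s ≥ 1`. So the
inequality of Q1 holds up to a constant factor if `d` is even, and fails by a factor of the exact
order `n` if `d` is odd.
-/

open Finset

namespace Pool.Agent.Results.MP_633f17_co.ExactOrder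

/-- `F` and `G` are cross-`(t,s)`: `|A ∩ B| ≥ t` and `|A ∪ B| ≤ n - s` for all `A ∈ F`, `B ∈ G`. -/
def IsCross (n t s : ℕ) (F G : Finset (Finset (Fin n))) : Prop :=
  ∀ A ∈ F, ∀ B ∈ G, t ≤ (A ∩ B).card ∧ (A ∪ B).card + s ≤ n

open Classical in
/-- `m(n,t,s)`: the largest size of a `(t,s)`-family, i.e. of a family `F` of subsets of an
`n`-set with `|A ∩ B| ≥ t` and `|A ∪ B| ≤ n - s` for all `A, B ∈ F` (`A = B` allowed). -/
noncomputable def m (n t s : ℕ) : ℕ :=
  ((univ : Finset (Finset (Finset (Fin n)))).filter (fun F => IsCross n t s F F)).sup card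

open Classical in
/-- `p(n,t,s)`: the largest product `|F| |G|` of cross-`(t,s)` families `F`, `G` of subsets of an
`n`-set. -/
noncomputable def p (n t s : ℕ) : ℕ :=
  ((univ : Finset (Finset (Finset (Fin n)) × Finset (Finset (Fin n)))).filter
    (fun q => IsCross n t s q.1 q.2)).sup (fun q => q.1.card * q.2.card)

lemma le_p {n t s : ℕ} {F G : Finset (Finset (Fin n))} (h : IsCross n t s F G) :
    F.card * G.card ≤ p n t s := by
  classical
  unfold p
  exact Finset.le_sup (f := fun q : Finset (Finset (Fin n)) × Finset (Finset (Fin n)) =>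
    q.1.card * q.2.card) (mem_filter.2 ⟨mem_univ (F, G), h⟩)

lemma exists_p (n t s : ℕ) : ∃ F G, IsCross n t s F G ∧ F.card * G.card = p n t s := by
  classical
  unfold p
  have hne : ((univ : Finset (Finset (Finset (Fin n)) × Finset (Finset (Fin n)))).filter
      (fun q => IsCross n t s q.1 q.2)).Nonempty :=
    ⟨(∅, ∅), mem_filter.2 ⟨mem_univ _, fun A hA => by simp at hA⟩⟩
  obtain ⟨q, hq, he⟩ := Finset.exists_mem_eq_sup _ hne
    (fun q : Finset (Finset (Fin n)) × Finset (Finset (Fin n)) => q.1.card * q.2.card)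
  exact ⟨q.1, q.2, (mem_filter.1 hq).2, he.symm⟩

lemma le_m {n t s : ℕ} {F : Finset (Finset (Fin n))} (h : IsCross n t s F F) :
    F.card ≤ m n t s := by
  classical
  unfold m
  exact Finset.le_sup (f := card) (mem_filter.2 ⟨mem_univ F, h⟩)

lemma exists_m (n t s : ℕ) : ∃ F, IsCross n t s F F ∧ F.card = m n t s := by
  classical
  unfold m
  have hne : ((univ : Finset (Finset (Finset (Fin n)))).filter
      (fun F => IsCross n t s F F)).Nonempty :=
    ⟨∅, mem_filter.2 ⟨mem_univ _, fun A hA => by simp at hA⟩⟩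
  obtain ⟨F, hF, he⟩ := Finset.exists_mem_eq_sup _ hne card
  exact ⟨F, (mem_filter.1 hF).2, he.symm⟩

/-- number of sets with at most `b` elements -/
theorem small_card (n b : ℕ) (hn : 1 ≤ n) :
    ((univ : Finset (Finset (Fin n))).filter (fun X => X.card ≤ b)).card ≤ (b + 1) * n ^ b := by
  have h1 : ((univ : Finset (Finset (Fin n))).filter (fun X => X.card ≤ b)) ⊆
      (range (b + 1)).biUnion (fun j => powersetCard j (univ : Finset (Fin n))) := by
    intro X hX
    rw [mem_filter] at hX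
    rw [mem_biUnion]
    exact ⟨X.card, mem_range.2 (by omega), mem_powersetCard.2 ⟨subset_univ _, rfl⟩⟩
  refine (card_le_card h1).trans ?_
  have h2 := card_biUnion_le_card_mul (range (b + 1))
    (fun j => powersetCard j (univ : Finset (Fin n))) (n ^ b) (by
      intro j hj
      rw [mem_range] at hj
      rw [card_powersetCard, card_univ, Fintype.card_fin]
      exact (Nat.choose_le_pow n j).trans (Nat.pow_le_pow_right hn (by omega)))
  rwa [card_range] at h2

/-- families of sets which are small outside of `D`, after translation by `A0` -/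
theorem outside {n : ℕ} (hn : 1 ≤ n) (H : Finset (Finset (Fin n))) (A0 D : Finset (Fin n)) (b : ℕ)
    (h : ∀ A ∈ H, (symmDiff A A0 \ D).card ≤ b) :
    H.card ≤ 2 ^ D.card * ((b + 1) * n ^ b) := by
  classical
  have hle : H.card ≤
      (D.powerset ×ˢ ((univ : Finset (Finset (Fin n))).filter (fun X => X.card ≤ b))).card := by
    apply card_le_card_of_injOn (fun A => (symmDiff A A0 ∩ D, symmDiff A A0 \ D))
    · intro A hA
      rw [mem_coe, mem_product]
      exact ⟨mem_powerset.2 inter_subset_right, mem_filter.2 ⟨mem_univ _, h A (mem_coe.1 hA)⟩⟩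
    · intro A hA B hB hAB
      have h1 : symmDiff A A0 ∩ D = symmDiff B A0 ∩ D := (Prod.mk.inj hAB).1
      have h2 : symmDiff A A0 \ D = symmDiff B A0 \ D := (Prod.mk.inj hAB).2
      have h3 : symmDiff A A0 = symmDiff B A0 := by
        rw [← sdiff_union_inter (symmDiff A A0) D, ← sdiff_union_inter (symmDiff B A0) D, h1, h2]
      exact symmDiff_left_injective A0 h3
  refine hle.trans ?_
  rw [card_product, card_powerset]
  exact Nat.mul_le_mul_left _ (small_card n b hn)

lemma symm_shift {n : ℕ} (B A0 A1 : Finset (Fin n)) :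
    symmDiff (symmDiff B A0) (symmDiff A0 A1) = symmDiff B A1 := by
  ext x
  simp only [mem_symmDiff]
  tauto

lemma card_symm {n : ℕ} (X D : Finset (Fin n)) :
    (symmDiff X D).card = (X \ D).card + (D \ X).card := by
  rw [show symmDiff X D = (X \ D) ∪ (D \ X) from rfl, card_union_of_disjoint]
  rw [Finset.disjoint_left]
  intro x hx hx2
  rw [mem_sdiff] at hx hx2
  exact hx.2 hx2.1

/-- constant for families of given diameter -/
def K1 (a : ℕ) : ℕ := (a + 1) * (2 ^ a * (a / 2 + 1))

/-- a family of diameter at most `a` has `O(n ^ ⌊a / 2⌋)` members -/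
theorem diam_upper {n : ℕ} (hn : 1 ≤ n) (a : ℕ) (H : Finset (Finset (Fin n)))
    (hH : ∀ A ∈ H, ∀ B ∈ H, (symmDiff A B).card ≤ a) : H.card ≤ K1 a * n ^ (a / 2) := by
  classical
  rcases H.eq_empty_or_nonempty with rfl | ⟨A0, hA0⟩
  · simp
  have hcov : H ⊆ (range (a + 1)).biUnion
      (fun i => H.filter (fun A => (symmDiff A A0).card = i)) := by
    intro A hA
    rw [mem_biUnion]
    refine ⟨(symmDiff A A0).card, mem_range.2 ?_, mem_filter.2 ⟨hA, rfl⟩⟩
    have := hH A hA A0 hA0
    omega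
  refine (card_le_card hcov).trans ?_
  have key : ∀ i ∈ range (a + 1), (H.filter (fun A => (symmDiff A A0).card = i)).card ≤
      2 ^ a * ((a / 2 + 1) * n ^ (a / 2)) := by
    intro i hi
    rw [mem_range] at hi
    rcases (H.filter (fun A => (symmDiff A A0).card = i)).eq_empty_or_nonempty with he | ⟨A1, hA1⟩
    · rw [he]; simp
    rw [mem_filter] at hA1
    obtain ⟨hA1, hc1⟩ := hA1
    have hDc : (symmDiff A0 A1).card = i := by rw [symmDiff_comm]; exact hc1
    refine (outside hn _ A0 (symmDiff A0 A1) (a / 2) ?_).trans ?_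
    · intro A hA
      rw [mem_filter] at hA
      have h2 := hH A hA.1 A1 hA1
      rw [← symm_shift A A0 A1, card_symm] at h2
      have e1 := card_sdiff_add_card_inter (symmDiff A A0) (symmDiff A0 A1)
      have e2 := card_sdiff_add_card_inter (symmDiff A0 A1) (symmDiff A A0)
      rw [inter_comm] at e2
      omega
    · rw [hDc]
      exact Nat.mul_le_mul_right _ (Nat.pow_le_pow_right (by norm_num) (by omega))
  have h5 := card_biUnion_le_card_mul _ _ _ key
  rw [card_range] at h5
  refine h5.trans (le_of_eq ?_)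
  unfold K1
  ring

lemma K1_mono {a b : ℕ} (h : a ≤ b) : K1 a ≤ K1 b := by
  unfold K1
  apply Nat.mul_le_mul (by omega)
  apply Nat.mul_le_mul (Nat.pow_le_pow_right (by norm_num) h)
  omega

/-- constant for the product -/
def K2 (d : ℕ) : ℕ := K1 (2 * d) * (2 ^ (2 * d) * (d + 1))

theorem cross_upper {n : ℕ} (hn : 1 ≤ n) (d : ℕ) (F G : Finset (Finset (Fin n)))
    (h : ∀ A ∈ F, ∀ B ∈ G, (symmDiff A B).card ≤ d) : F.card * G.card ≤ K2 d * n ^ d := by
  classical
  rcases F.eq_empty_or_nonempty with rfl | hF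
  · simp
  rcases G.eq_empty_or_nonempty with rfl | ⟨B0, hB0⟩
  · simp
  obtain ⟨⟨A0, A1⟩, hq, he⟩ := Finset.exists_mem_eq_sup (F ×ˢ F) (hF.product hF)
    (fun q : Finset (Fin n) × Finset (Fin n) => (symmDiff q.1 q.2).card)
  obtain ⟨hA0, hA1⟩ := mem_product.1 hq
  simp only at hA0 hA1 he
  set a := (F ×ˢ F).sup (fun q : Finset (Fin n) × Finset (Fin n) => (symmDiff q.1 q.2).card)
    with ha
  have hdiam : ∀ A ∈ F, ∀ B ∈ F, (symmDiff A B).card ≤ a := by
    intro A hA B hB
    exact Finset.le_sup (f := fun q : Finset (Fin n) × Finset (Fin n) => (symmDiff q.1 q.2).card)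
      (mem_product.2 ⟨hA, hB⟩ : (A, B) ∈ F ×ˢ F)
  have ha2 : a ≤ 2 * d := by
    rw [he]
    have h1 : symmDiff A0 A1 ⊆ symmDiff A0 B0 ∪ symmDiff A1 B0 := by
      intro x hx
      simp only [mem_union, mem_symmDiff] at hx ⊢
      tauto
    have h2 := (card_le_card h1).trans (card_union_le _ _)
    have h3 := h A0 hA0 B0 hB0
    have h4 := h A1 hA1 B0 hB0
    omega
  have hFc := (diam_upper hn a F hdiam).trans (Nat.mul_le_mul_right _ (K1_mono ha2))
  have hGc : G.card ≤ 2 ^ (2 * d) * ((d + 1) * n ^ (d - (a + 1) / 2)) := by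
    refine (outside hn G A0 (symmDiff A0 A1) (d - (a + 1) / 2) ?_).trans ?_
    · intro B hB
      have h1 := h A0 hA0 B hB
      have h2 := h A1 hA1 B hB
      rw [symmDiff_comm] at h1 h2
      rw [← symm_shift B A0 A1, card_symm] at h2
      have e1 := card_sdiff_add_card_inter (symmDiff B A0) (symmDiff A0 A1)
      have e2 := card_sdiff_add_card_inter (symmDiff A0 A1) (symmDiff B A0)
      rw [inter_comm] at e2
      omega
    · rw [← he]
      apply Nat.mul_le_mul (Nat.pow_le_pow_right (by norm_num) ha2)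
      exact Nat.mul_le_mul_right _ (by omega)
  calc F.card * G.card
      ≤ (K1 (2 * d) * n ^ (a / 2)) * (2 ^ (2 * d) * ((d + 1) * n ^ (d - (a + 1) / 2))) :=
        Nat.mul_le_mul hFc hGc
    _ = K2 d * n ^ (a / 2 + (d - (a + 1) / 2)) := by
        unfold K2
        rw [pow_add]
        ring
    _ ≤ K2 d * n ^ d := Nat.mul_le_mul_left _ (Nat.pow_le_pow_right hn (by omega))

lemma dist_of_cross {n t s d : ℕ} (hn : n = t + s + d) {F G : Finset (Finset (Fin n))}
    (h : IsCross n t s F G) : ∀ A ∈ F, ∀ B ∈ G, (symmDiff A B).card ≤ d := by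
  intro A hA B hB
  obtain ⟨h1, h2⟩ := h A hA B hB
  have h3 : symmDiff A B = (A ∪ B) \ (A ∩ B) := by
    ext x
    simp only [mem_symmDiff, mem_sdiff, mem_union, mem_inter]
    tauto
  rw [h3, card_sdiff_of_subset (inter_subset_left.trans subset_union_left)]
  omega

theorem construct (n t s d : ℕ) (hn : n = t + s + d) :
    ∃ Φ : ℕ → Finset (Finset (Fin n)), (∀ i, (Φ i).card = (s + d).choose i) ∧
      ∀ i j, i + j ≤ d → IsCross n t s (Φ i) (Φ j) := by
  classical
  obtain ⟨T, -, hT⟩ := Finset.exists_subset_card_eq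
    (show t ≤ (univ : Finset (Fin n)).card by
      rw [card_univ, Fintype.card_fin]; omega)
  have hTc : (Tᶜ).card = s + d := by
    rw [card_compl, Fintype.card_fin, hT]; omega
  refine ⟨fun j => (powersetCard j Tᶜ).image (fun X => T ∪ X), ?_, ?_⟩
  · intro j
    rw [card_image_of_injOn, card_powersetCard, hTc]
    intro X hX Y hY hXY
    rw [mem_coe, mem_powersetCard] at hX hY
    have hXY' : T ∪ X = T ∪ Y := hXY
    have e1 : (T ∪ X) \ T = X := by
      rw [union_sdiff_left, sdiff_eq_self_of_disjoint]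
      exact Finset.disjoint_left.2 fun x hx => mem_compl.1 (hX.1 hx)
    have e2 : (T ∪ Y) \ T = Y := by
      rw [union_sdiff_left, sdiff_eq_self_of_disjoint]
      exact Finset.disjoint_left.2 fun x hx => mem_compl.1 (hY.1 hx)
    rw [← e1, ← e2, hXY']
  · intro i j hij A hA B hB
    rw [mem_image] at hA hB
    obtain ⟨X, hX, rfl⟩ := hA
    obtain ⟨Y, hY, rfl⟩ := hB
    rw [mem_powersetCard] at hX hY
    constructor
    · rw [← hT]
      apply card_le_card
      intro x hx
      exact mem_inter.2 ⟨mem_union_left _ hx, mem_union_left _ hx⟩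
    · have h1 : (T ∪ X) ∪ (T ∪ Y) ⊆ T ∪ (X ∪ Y) := by
        intro x hx
        simp only [mem_union] at hx ⊢
        tauto
      have h2 := card_le_card h1
      have h3 := card_union_le T (X ∪ Y)
      have h4 := card_union_le X Y
      omega

/-- complements exchange `t` and `s` -/
theorem construct' (n t s d : ℕ) (hn : n = t + s + d) :
    ∃ Φ : ℕ → Finset (Finset (Fin n)), (∀ i, (Φ i).card = (t + d).choose i) ∧
      ∀ i j, i + j ≤ d → IsCross n t s (Φ i) (Φ j) := by
  classical
  obtain ⟨Φ, h1, h2⟩ := construct n s t d (by omega)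
  refine ⟨fun i => (Φ i).image compl, ?_, ?_⟩
  · intro i
    rw [card_image_of_injective _ compl_injective, h1]
  · intro i j hij A hA B hB
    rw [mem_image] at hA hB
    obtain ⟨X, hX, rfl⟩ := hA
    obtain ⟨Y, hY, rfl⟩ := hB
    obtain ⟨h3, h4⟩ := h2 i j hij X hX Y hY
    have e1 : Xᶜ ∩ Yᶜ = (X ∪ Y)ᶜ := by
      ext x
      simp
    have e2 : Xᶜ ∪ Yᶜ = (X ∩ Y)ᶜ := by
      ext x
      simp only [mem_union, mem_compl, mem_inter]
      tauto
    rw [e1, e2, card_compl, card_compl, Fintype.card_fin]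
    omega

theorem construct_max (n t s d : ℕ) (hn : n = t + s + d) :
    ∃ Φ : ℕ → Finset (Finset (Fin n)), (∀ i, (Φ i).card = (max t s + d).choose i) ∧
      ∀ i j, i + j ≤ d → IsCross n t s (Φ i) (Φ j) := by
  rcases le_total t s with h | h
  · rw [max_eq_right h]
    exact construct n t s d hn
  · rw [max_eq_left h]
    exact construct' n t s d hn

lemma choose_lower (t s d i : ℕ) (hi : i ≤ d) :
    (t + s + d) ^ i ≤ ((d + 2) ^ i * i.factorial) * (max t s + d).choose i := by
  have h1 : (max t s + d + 1 - i) ^ i ≤ i.factorial * (max t s + d).choose i := by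
    have := Nat.pow_le_choose (α := ℚ) i (max t s + d)
    rw [div_le_iff₀ (by exact_mod_cast i.factorial_pos)] at this
    rw [mul_comm]
    exact_mod_cast this
  have h2 : t + s + d ≤ (d + 2) * (max t s + d + 1 - i) := by
    have h3 : max t s + 1 ≤ max t s + d + 1 - i := by omega
    have h4 : t ≤ max t s := le_max_left _ _
    have h5 : s ≤ max t s := le_max_right _ _
    nlinarith
  calc (t + s + d) ^ i ≤ ((d + 2) * (max t s + d + 1 - i)) ^ i := Nat.pow_le_pow_left h2 i
    _ = (d + 2) ^ i * (max t s + d + 1 - i) ^ i := mul_pow _ _ _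
    _ ≤ (d + 2) ^ i * (i.factorial * (max t s + d).choose i) := Nat.mul_le_mul_left _ h1
    _ = _ := by ring

/-- constant in the lower bounds -/
def L (d : ℕ) : ℕ := (d + 2) ^ d * (d.factorial * d.factorial)

lemma m_upper (t s d : ℕ) (hn : 1 ≤ t + s + d) :
    m (t + s + d) t s ≤ K1 d * (t + s + d) ^ (d / 2) := by
  obtain ⟨F, hF, he⟩ := exists_m (t + s + d) t s
  rw [← he]
  exact diam_upper hn d F (dist_of_cross rfl hF)

lemma p_upper (t s d : ℕ) (hn : 1 ≤ t + s + d) :
    p (t + s + d) t s ≤ K2 d * (t + s + d) ^ d := by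
  obtain ⟨F, G, hF, he⟩ := exists_p (t + s + d) t s
  rw [← he]
  exact cross_upper hn d F G (dist_of_cross rfl hF)

lemma m_lower (t s d : ℕ) : (t + s + d) ^ (d / 2) ≤ L d * m (t + s + d) t s := by
  obtain ⟨Φ, h1, h2⟩ := construct_max (t + s + d) t s d rfl
  have h3 := choose_lower t s d (d / 2) (by omega)
  rw [← h1] at h3
  refine h3.trans (Nat.mul_le_mul ?_ (le_m (h2 (d / 2) (d / 2) (by omega))))
  unfold L
  apply Nat.mul_le_mul (Nat.pow_le_pow_right (by omega) (by omega))
  exact (Nat.factorial_le (by omega)).trans (Nat.le_mul_of_pos_right _ (Nat.factorial_pos _))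

lemma p_lower (t s d : ℕ) : (t + s + d) ^ d ≤ L d * p (t + s + d) t s := by
  obtain ⟨Φ, h1, h2⟩ := construct_max (t + s + d) t s d rfl
  have h3 := choose_lower t s d (d / 2) (by omega)
  have h4 := choose_lower t s d (d - d / 2) (by omega)
  rw [← h1] at h3 h4
  have h5 := le_p (h2 (d / 2) (d - d / 2) (by omega))
  calc (t + s + d) ^ d = (t + s + d) ^ (d / 2) * (t + s + d) ^ (d - d / 2) := by
        rw [← pow_add]
        congr 1
        omega
    _ ≤ _ := Nat.mul_le_mul h3 h4
    _ = ((d + 2) ^ (d / 2) * (d + 2) ^ (d - d / 2) * ((d / 2).factorial *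
          (d - d / 2).factorial)) * ((Φ (d / 2)).card * (Φ (d - d / 2)).card) := by ring
    _ ≤ L d * p (t + s + d) t s := by
        refine Nat.mul_le_mul ?_ h5
        unfold L
        apply Nat.mul_le_mul
        · rw [← pow_add]
          exact Nat.pow_le_pow_right (by omega) (by omega)
        · exact Nat.mul_le_mul (Nat.factorial_le (by omega)) (Nat.factorial_le (by omega))

/-- **The exact order of the largest product of cross-`(t,s)` families.** For every `d` there is a
constant `K` such that for all `t, s ≥ 1` and `n = t + s + d`: the largest size `m(n,t,s)` of a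
`(t,s)`-family is between `n ^ ⌊d/2⌋ / K` and `K n ^ ⌊d/2⌋`; the largest product `p(n,t,s)` of
cross-`(t,s)` families is between `n ^ d / K` and `K n ^ d`; if `d` is even then
`m(n,t,s)² ≤ p(n,t,s) ≤ K m(n,t,s)²`; and if `d` is odd then `p(n,t,s)` is between `n m(n,t,s)² / K`
and `K n m(n,t,s)²`.

In particular (second part, the negative answer to Q1 for every odd `d` and all `t, s ≥ 1` with
`t + s` large) for every `R` there is `n₀` such that for all `t, s ≥ 1` with `t + s ≥ n₀` there are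
cross-`(t,s)` families with `|F| |G| > R m(n,t,s)²`. -/
theorem result :
    (∀ d : ℕ, ∃ K : ℕ, 0 < K ∧ ∀ t s : ℕ, 1 ≤ t → 1 ≤ s →
      ((t + s + d) ^ (d / 2) ≤ K * m (t + s + d) t s ∧
        m (t + s + d) t s ≤ K * (t + s + d) ^ (d / 2)) ∧
      ((t + s + d) ^ d ≤ K * p (t + s + d) t s ∧ p (t + s + d) t s ≤ K * (t + s + d) ^ d) ∧
      (Even d → m (t + s + d) t s ^ 2 ≤ p (t + s + d) t s ∧
        p (t + s + d) t s ≤ K * m (t + s + d) t s ^ 2) ∧
      (Odd d → (t + s + d) * m (t + s + d) t s ^ 2 ≤ K * p (t + s + d) t s ∧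
        p (t + s + d) t s ≤ K * ((t + s + d) * m (t + s + d) t s ^ 2))) ∧
    ∀ d R : ℕ, Odd d → ∃ n₀ : ℕ, ∀ t s : ℕ, 1 ≤ t → 1 ≤ s → n₀ ≤ t + s →
      ∃ F G : Finset (Finset (Fin (t + s + d))), IsCross (t + s + d) t s F G ∧
        R * m (t + s + d) t s ^ 2 < F.card * G.card := by
  have main : ∀ d : ℕ, ∃ K : ℕ, 0 < K ∧ ∀ t s : ℕ, 1 ≤ t → 1 ≤ s →
      ((t + s + d) ^ (d / 2) ≤ K * m (t + s + d) t s ∧
        m (t + s + d) t s ≤ K * (t + s + d) ^ (d / 2)) ∧
      ((t + s + d) ^ d ≤ K * p (t + s + d) t s ∧ p (t + s + d) t s ≤ K * (t + s + d) ^ d) ∧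
      (Even d → m (t + s + d) t s ^ 2 ≤ p (t + s + d) t s ∧
        p (t + s + d) t s ≤ K * m (t + s + d) t s ^ 2) ∧
      (Odd d → (t + s + d) * m (t + s + d) t s ^ 2 ≤ K * p (t + s + d) t s ∧
        p (t + s + d) t s ≤ K * ((t + s + d) * m (t + s + d) t s ^ 2)) := by
    intro d
    refine ⟨L d + K1 d + K2 d + K2 d * L d ^ 2 + K1 d ^ 2 * L d + 1, by omega, ?_⟩
    intro t s ht hs
    have a1 := m_upper t s d (by omega)
    have a2 := m_lower t s d
    have a3 := p_upper t s d (by omega)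
    have a4 := p_lower t s d
    set n := t + s + d with hn
    set μ := m n t s with hμ
    set π := p n t s with hπ
    have b1 : n ^ (2 * (d / 2)) ≤ L d ^ 2 * μ ^ 2 := by
      rw [mul_comm 2, pow_mul, ← mul_pow]
      exact Nat.pow_le_pow_left a2 2
    have b2 : μ ^ 2 ≤ K1 d ^ 2 * n ^ (2 * (d / 2)) := by
      rw [mul_comm 2, pow_mul, ← mul_pow]
      exact Nat.pow_le_pow_left a1 2
    have hsq : μ ^ 2 ≤ π := by
      obtain ⟨F, hF, he⟩ := exists_m n t s
      have := le_p hF
      rw [he] at this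
      rw [sq]
      exact this
    refine ⟨⟨a2.trans (Nat.mul_le_mul_right _ (by omega)), a1.trans (Nat.mul_le_mul_right _
      (by omega))⟩, ⟨a4.trans (Nat.mul_le_mul_right _ (by omega)), a3.trans
      (Nat.mul_le_mul_right _ (by omega))⟩, fun hd => ⟨hsq, ?_⟩, fun hd => ⟨?_, ?_⟩⟩
    · have e : 2 * (d / 2) = d := Nat.two_mul_div_two_of_even hd
      rw [e] at b1
      calc π ≤ K2 d * n ^ d := a3
        _ ≤ K2 d * (L d ^ 2 * μ ^ 2) := Nat.mul_le_mul_left _ b1
        _ = (K2 d * L d ^ 2) * μ ^ 2 := by ring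
        _ ≤ _ := Nat.mul_le_mul_right _ (by omega)
    · have e : 2 * (d / 2) + 1 = d := Nat.two_mul_div_two_add_one_of_odd hd
      calc n * μ ^ 2 ≤ n * (K1 d ^ 2 * n ^ (2 * (d / 2))) := Nat.mul_le_mul_left _ b2
        _ = K1 d ^ 2 * n ^ (2 * (d / 2) + 1) := by ring
        _ = K1 d ^ 2 * n ^ d := by rw [e]
        _ ≤ K1 d ^ 2 * (L d * π) := Nat.mul_le_mul_left _ a4
        _ = (K1 d ^ 2 * L d) * π := by ring
        _ ≤ _ := Nat.mul_le_mul_right _ (by omega)
    · have e : 2 * (d / 2) + 1 = d := Nat.two_mul_div_two_add_one_of_odd hd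
      calc π ≤ K2 d * n ^ d := a3
        _ = K2 d * (n * n ^ (2 * (d / 2))) := by
            have e3 : n ^ d = n * n ^ (2 * (d / 2)) := by rw [← pow_succ', e]
            rw [e3]
        _ ≤ K2 d * (n * (L d ^ 2 * μ ^ 2)) := Nat.mul_le_mul_left _ (Nat.mul_le_mul_left _ b1)
        _ = (K2 d * L d ^ 2) * (n * μ ^ 2) := by ring
        _ ≤ _ := Nat.mul_le_mul_right _ (by omega)
  refine ⟨main, fun d R hd => ?_⟩
  obtain ⟨K, hK, h⟩ := main d
  refine ⟨K * R + 1, fun t s ht hs hts => ?_⟩
  obtain ⟨⟨h1, -⟩, -, -, h2⟩ := h t s ht hs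
  obtain ⟨h3, -⟩ := h2 hd
  obtain ⟨F, G, hFG, he⟩ := exists_p (t + s + d) t s
  refine ⟨F, G, hFG, ?_⟩
  rw [he]
  have hm : 0 < m (t + s + d) t s := by
    rcases Nat.eq_zero_or_pos (m (t + s + d) t s) with h0 | h0
    · rw [h0, mul_zero] at h1
      have : 0 < (t + s + d) ^ (d / 2) := Nat.pow_pos (by omega)
      omega
    · exact h0
  refine lt_of_mul_lt_mul_left (a := K) ?_ (Nat.zero_le _)
  calc K * (R * m (t + s + d) t s ^ 2) = (K * R) * m (t + s + d) t s ^ 2 := by ring
    _ < (t + s + d) * m (t + s + d) t s ^ 2 :=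
        Nat.mul_lt_mul_of_pos_right (by omega) (Nat.pow_pos hm)
    _ ≤ _ := h3

end Pool.Agent.Results.MP_633f17_co.ExactOrder
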